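import Mathlib

/-!
Two metric spaces `A`, `B` that are not isometric although `A × A` and `B × B`,
each with the Euclidean product metric, are isometric.
`A` is the set of rational numbers and `B` is the set of rational multiples of the
square root of two, both with the metric of the real line.
-/

namespace Pool.Agent.Results.MP_1231ed_gt.SquareRoots

open Real

/-- The Euclidean product distance on `X × X`. -/
noncomputable def eucProd (X : Type) [MetricSpace X] (p q : X × X) : ℝ :=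
  Real.sqrt (dist p.1 q.1 ^ 2 + dist p.2 q.2 ^ 2)

/-- The rational multiples of `√2` inside the real line. -/
def sqrtTwoRat : Set ℝ := {x | ∃ q : ℚ, x = (q : ℝ) * Real.sqrt 2}

/-- The rational numbers inside the real line. -/
def ratLine : Set ℝ := {x | ∃ q : ℚ, x = (q : ℝ)}

lemma sq_two : Real.sqrt 2 * Real.sqrt 2 = 2 := Real.mul_self_sqrt (by norm_num)

/-- rotation by 45 degrees, from pairs in `ratLine` to pairs in `sqrtTwoRat` -/
noncomputable def rot : ratLine × ratLine ≃ sqrtTwoRat × sqrtTwoRat where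
  toFun p := (⟨(p.1.1 + p.2.1) / 2 * Real.sqrt 2, by
      obtain ⟨a, ha⟩ := p.1.2
      obtain ⟨b, hb⟩ := p.2.2
      exact ⟨(a + b) / 2, by rw [ha, hb]; push_cast; ring⟩⟩,
    ⟨(p.1.1 - p.2.1) / 2 * Real.sqrt 2, by
      obtain ⟨a, ha⟩ := p.1.2
      obtain ⟨b, hb⟩ := p.2.2
      exact ⟨(a - b) / 2, by rw [ha, hb]; push_cast; ring⟩⟩)
  invFun p := (⟨(p.1.1 + p.2.1) / 2 * Real.sqrt 2, by
      obtain ⟨a, ha⟩ := p.1.2
      obtain ⟨b, hb⟩ := p.2.2
      refine ⟨a + b, ?_⟩
      rw [ha, hb]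
      push_cast
      linear_combination ((a : ℝ) + b) / 2 * sq_two⟩,
    ⟨(p.1.1 - p.2.1) / 2 * Real.sqrt 2, by
      obtain ⟨a, ha⟩ := p.1.2
      obtain ⟨b, hb⟩ := p.2.2
      refine ⟨a - b, ?_⟩
      rw [ha, hb]
      push_cast
      linear_combination ((a : ℝ) - b) / 2 * sq_two⟩)
  left_inv p := by
    ext
    · simp only
      linear_combination (p.1.1 : ℝ) / 2 * sq_two
    · simp only
      linear_combination (p.2.1 : ℝ) / 2 * sq_two
  right_inv p := by
    ext
    · simp only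
      linear_combination (p.1.1 : ℝ) / 2 * sq_two
    · simp only
      linear_combination (p.2.1 : ℝ) / 2 * sq_two

lemma rot_isometric (p q : ratLine × ratLine) :
    eucProd sqrtTwoRat (rot p) (rot q) = eucProd ratLine p q := by
  unfold eucProd
  congr 1
  simp only [Subtype.dist_eq, Real.dist_eq, sq_abs, rot, Equiv.coe_fn_mk]
  linear_combination (((p.1.1 : ℝ) - q.1.1) ^ 2 + (p.2.1 - q.2.1) ^ 2) / 2 * sq_two

/-- There are metric spaces `A` and `B` that are not isometric while their squares with the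
Euclidean product metric are isometric. -/
theorem result :
    ∃ (A B : Type) (_ : MetricSpace A) (_ : MetricSpace B),
      (∃ φ : A × A ≃ B × B, ∀ p q : A × A,
        Real.sqrt (dist (φ p).1 (φ q).1 ^ 2 + dist (φ p).2 (φ q).2 ^ 2)
          = Real.sqrt (dist p.1 q.1 ^ 2 + dist p.2 q.2 ^ 2)) ∧
      ¬ ∃ φ : A ≃ B, ∀ x y : A, dist (φ x) (φ y) = dist x y := by
  refine ⟨ratLine, sqrtTwoRat, inferInstance, inferInstance, ⟨rot, rot_isometric⟩, ?_⟩
  rintro ⟨φ, hφ⟩
  have h := hφ ⟨0, 0, by simp⟩ ⟨1, 1, by simp⟩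
  obtain ⟨a, ha⟩ := (φ ⟨0, 0, by simp⟩).2
  obtain ⟨b, hb⟩ := (φ ⟨1, 1, by simp⟩).2
  rw [Subtype.dist_eq, Subtype.dist_eq, ha, hb, Real.dist_eq, Real.dist_eq] at h
  have h2 : ((a : ℝ) - b) ^ 2 * 2 = 1 := by
    have h3 := congrArg (fun t => t ^ 2) h
    simp only [sq_abs] at h3
    linear_combination h3 - ((a : ℝ) - b) ^ 2 * sq_two
  refine irrational_sqrt_two ⟨|(a - b) * 2|, ?_⟩
  have h4 : ((a : ℝ) - b) * 2 * (((a : ℝ) - b) * 2) = 2 := by linear_combination 2 * h2
  have h5 : Real.sqrt 2 = |((a : ℝ) - b) * 2| := by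
    rw [← Real.sqrt_mul_self_eq_abs, h4]
  rw [h5]
  push_cast
  rfl

end Pool.Agent.Results.MP_1231ed_gt.SquareRoots
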